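import Mathlib
import Pool.Agent.Q17.ZN.Defs
import Pool.Agent.Q17.ZN.Rep

/-!
`X_3` is non-zero in `Z_n` for every `n ≥ 3`.
-/

namespace Pool.Agent.Results.MP_2b4a1d_al

open Q17.ZN

/-- The set of `n ≥ 3` for which `X_3 = 0` in `Z_n` (over `ℤ[q, q⁻¹]`) is empty. More generally,
over any commutative ring `R` with a unit `q` such that `(1 - q) (q² - 1) ≠ 0`, the element `X_3`
is non-zero in `Z_n` for all `n ≥ 3`. -/
theorem NeverVanishes.result :
    {n : ℕ | 3 ≤ n ∧ toZ n qUnit (X n qUnit 3) = 0} = ∅ ∧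
      ∀ (R : Type) [CommRing R] (q : Rˣ), (1 - (q : R)) * ((q : R) ^ 2 - 1) ≠ 0 →
        ∀ n : ℕ, 3 ≤ n → toZ n q (X n q 3) ≠ 0 := by
  refine ⟨?_, fun R _ q hq n hn => X3_notMem hn q hq⟩
  ext n
  simp only [Set.mem_ofPred_eq, Set.mem_empty_iff_false, iff_false, not_and]
  intro hn
  exact X3_notMem hn qUnit qUnit_ok

end Pool.Agent.Results.MP_2b4a1d_al
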